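import Mathlib
import Pool.Agent.Helper58.FX.St.Stubs

/-! Project FX, piece FX-20: classification of the limit points. -/

set_option autoImplicit false
open MeasureTheory Filter Topology Helper17.LevelSets
open scoped InnerProductSpace ComplexConjugate ENNReal ComplexOrder

namespace Helper81.FX
open Helper58.FX

/-- FX-20 -/
theorem classify {p : ℕ × ℕ → ℤ → ℂ}
    (hp : ∀ s, PDZ (p s) ∧ p s 0 = 1 ∧ (∀ n, p s (2 * n) = p s n) ∧ ∀ n, p s (3 * n) = p s n)
    {q : ℤ → ℂ} (hq : q ∈ closure (Set.range p))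
    (hD : ∀ n : ℤ, ∀ η : ℝ, 0 < η → ∃ M : ℕ, 1 ≤ M ∧
      (EE (fun j => q (n * j)) M).re - ‖q n‖ ^ 2 ≤ η) :
    (∀ n : ℤ, n ≠ 0 → q n = 0) ∨ (∃ m : ℕ, 1 ≤ m ∧ q m = 1) ∨ ExLike q := by
  have hcl : IsClosed {f : ℤ → ℂ | PDZ f ∧ f 0 = 1 ∧ (∀ n, f (2 * n) = f n) ∧
      ∀ n, f (3 * n) = f n} := by
    have h1 : IsClosed {f : ℤ → ℂ | PDZ f} := by
      have e : {f : ℤ → ℂ | PDZ f} = ⋂ (s : Finset ℤ) (c : ℤ → ℂ),
          {f : ℤ → ℂ | 0 ≤ ∑ i ∈ s, ∑ j ∈ s, star (c j) * c i * f (i - j)} := by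
        ext f
        simp only [Set.mem_iInter]
        exact Iff.rfl
      rw [e]
      refine isClosed_iInter fun s => isClosed_iInter fun c => ?_
      exact isClosed_le continuous_const (continuous_finsetSum _ fun i _ =>
        continuous_finsetSum _ fun j _ => continuous_const.mul (continuous_apply _))
    have h2 : IsClosed {f : ℤ → ℂ | f 0 = 1} :=
      isClosed_eq (continuous_apply _) continuous_const
    have h3 : ∀ k : ℤ, IsClosed {f : ℤ → ℂ | ∀ n, f (k * n) = f n} := by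
      intro k
      have e : {f : ℤ → ℂ | ∀ n, f (k * n) = f n} = ⋂ n : ℤ, {f : ℤ → ℂ | f (k * n) = f n} := by
        ext f
        simp only [Set.mem_iInter]
        exact Iff.rfl
      rw [e]
      exact isClosed_iInter fun n => isClosed_eq (continuous_apply _) (continuous_apply _)
    exact h1.inter (h2.inter ((h3 2).inter (h3 3)))
  obtain ⟨hq1, hq0, hq2, hq3⟩ := closure_minimal (by rintro _ ⟨s, rfl⟩; exact hp s) hcl hq
  obtain ⟨ν, hν, hft, m2, m3⟩ := St.exists_measure hq1 hq0 hq2 hq3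
  have hqf : ft ν = q := funext hft
  have herg : Erg (ft ν) := by
    intro n
    obtain ⟨E, hE1, -, hE2, hE3⟩ := St.me m2 m3 n
    have hE : E = ‖ft ν n‖ ^ 2 := by
      refine le_antisymm (le_of_forall_pos_le_add fun η hη => ?_) hE2
      obtain ⟨M, hM, hle⟩ := hD n η hη
      have h1 := hE3 M hM
      rw [hqf] at h1 ⊢
      linarith
    rw [← hE]
    exact hE1
  by_cases hat : ∃ x : Tor, ν {x} ≠ 0
  · obtain ⟨x, hx⟩ := hat
    obtain ⟨m, hm1, hm2⟩ := St.atom_one m2 m3 herg hx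
    exact Or.inr (Or.inl ⟨m, hm1, by rw [← hft, hm2]⟩)
  · by_cases hz : ∀ n : ℤ, n ≠ 0 → q n = 0
    · exact Or.inl hz
    · refine Or.inr (Or.inr ⟨⟨ν, hν, hft, m2, m3, fun x => ?_⟩, ?_, ?_⟩)
      · by_contra hx
        exact hat ⟨x, hx⟩
      · rw [← hqf]; exact herg
      · by_contra hne
        exact hz fun n hn => by
          by_contra h0
          exact hne ⟨n, hn, h0⟩

end Helper81.FX
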