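import Mathlib
import Pool.Agent.Helper58.FX.St.Stubs

/-! Project FX, piece FX-6: a vector which returns often is compact. -/

set_option autoImplicit false
open MeasureTheory Filter Topology Helper17.LevelSets
open scoped InnerProductSpace ComplexConjugate ENNReal

namespace Helper81.FX
open Helper58.FX

section Hilbert

variable {H : Type*} [NormedAddCommGroup H] [InnerProductSpace ℂ H] [CompleteSpace H]
  {U V : H →ₗᵢ[ℂ] H}

/-- FX-6 -/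
theorem compact_of_return (hUV : Commute U V) {v : H} (hv : ‖v‖ = 1)
    (h : ∃ ε : ℝ, 0 < ε ∧ ∀ η : ℝ, 0 < η → ¬ Up {s | ‖⟪v, act U V s v⟫_ℂ - 1‖ < η} ε) :
    v ∈ Hc U V := by
  obtain ⟨ε, hε, hU⟩ := h
  by_contra hvc
  obtain ⟨u, hu⟩ : ∃ u, u = PP U V v := ⟨_, rfl⟩
  obtain ⟨w, hw⟩ : ∃ w, w = v - u := ⟨_, rfl⟩
  have hum : u ∈ Hc U V := by
    rw [hu]; exact Submodule.starProjection_apply_mem _ _
  have hwm : w ∈ (Hc U V)ᗮ := by
    rw [hw, hu]; exact Submodule.sub_starProjection_mem_orthogonal _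
  have hvuw : v = u + w := by rw [hw]; abel
  have hw0 : w ≠ 0 := by
    rintro rfl
    apply hvc
    rw [hvuw, add_zero]
    exact hum
  have huw : ⟪u, w⟫_ℂ = 0 := Submodule.inner_right_of_mem_orthogonal hum hwm
  have hnorm : ‖u‖ ^ 2 + ‖w‖ ^ 2 = 1 := by
    have h1 := norm_add_sq_eq_norm_sq_add_norm_sq_of_inner_eq_zero u w huw
    rw [← hvuw, hv] at h1
    nlinarith
  have hwpos : 0 < ‖w‖ ^ 2 := by positivity
  have hη : 0 < ‖w‖ ^ 2 / 2 := by linarith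
  apply hU _ hη
  refine St.up_mono ?_ le_rfl (St.up_of_mean (fun s => by positivity)
    (St.weak_mixing hUV hwm w) (η := (‖w‖ ^ 2 / 2) ^ 2) (by positivity) hε)
  intro s hs
  change ‖⟪v, act U V s v⟫_ℂ - 1‖ < ‖w‖ ^ 2 / 2 at hs
  change (‖w‖ ^ 2 / 2) ^ 2 ≤ ‖⟪w, act U V s w⟫_ℂ‖ ^ 2
  have e1 : ⟪v, act U V s v⟫_ℂ = ⟪u, act U V s u⟫_ℂ + ⟪w, act U V s w⟫_ℂ := by
    have c1 : ⟪u, act U V s w⟫_ℂ = 0 :=
      Submodule.inner_right_of_mem_orthogonal hum (St.act_mem_Hc_orth hUV s hwm)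
    have c2 : ⟪w, act U V s u⟫_ℂ = 0 :=
      Submodule.inner_left_of_mem_orthogonal (St.act_mem_Hc hUV s hum) hwm
    rw [hvuw, map_add, inner_add_left, inner_add_right, inner_add_right, c1, c2]
    ring
  have e2 : ‖⟪u, act U V s u⟫_ℂ‖ ≤ ‖u‖ ^ 2 := by
    refine (norm_inner_le_norm _ _).trans ?_
    rw [LinearIsometry.norm_map, sq]
  have e3 : (1 : ℝ) ≤ ‖⟪v, act U V s v⟫_ℂ - 1‖ + ‖⟪v, act U V s v⟫_ℂ‖ := by
    have h2 := norm_sub_norm_le (1 : ℂ) (⟪v, act U V s v⟫_ℂ)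
    rw [norm_one, norm_sub_rev] at h2
    linarith
  have e4 : ‖⟪v, act U V s v⟫_ℂ‖ ≤ ‖⟪u, act U V s u⟫_ℂ‖ + ‖⟪w, act U V s w⟫_ℂ‖ := by
    rw [e1]; exact norm_add_le _ _
  have e5 : ‖w‖ ^ 2 / 2 ≤ ‖⟪w, act U V s w⟫_ℂ‖ := by linarith
  exact pow_le_pow_left₀ hη.le e5 2

end Hilbert

end Helper81.FX
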